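import Mathlib
import Pool.Agent.H282R3.RW.Defs
import Pool.Agent.H282R3.RW.Main

/-!
# The escape rate of the rotor walk on `ℤ ^ d` with aligned initial rotors

For `d ≥ 3`, every rotor mechanism and every coordinate `v` (for instance the last one), the
proportion of the first `n` particles which escape, for the rotor walk whose rotors all point in
the direction `e_v` at the beginning, tends to the probability that the simple random walk never
returns to the origin.

Idea of the proof. A particle which enters a column `x + ℤ e_v` not visited before goes up for
ever, so the number of visited columns is at most the number of particles which have escaped. Each
rotor gets a weight, such that the sum of all the weights and of the hitting probability of the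
origin from the position of the particle changes only when the particle leaves the origin. So the
difference between the number of escapes and `n` times the escape probability is at most twice the
sum, over the visited columns, of the increments of the hitting probability; and the sum of these
increments over a column tends to zero when the column tends to infinity.
-/

open Filter Topology
open Pool.Agent.H282R3.RW

namespace Pool.Agent.Results.MP_b041da_pr.AlignedEscapeRate

theorem result :
    ∀ (d : ℕ) [NeZero d], 3 ≤ d →
      ∀ m : V d → Equiv.Perm (Dir d), IsMechanism m →
        ∀ v : Fin d,
          Tendsto (fun n : ℕ => (escapeCount m (fun _ => (v, true)) n : ℝ) / n) atTop
            (𝓝 (escapeProb d)) := by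
  intro d _ hd m hm v
  exact tendsto_escapeCount hm hd v

end Pool.Agent.Results.MP_b041da_pr.AlignedEscapeRate
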